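import Mathlib
import Pool.Agent.R856.TKE
import Pool.Agent.R856.FE

set_option autoImplicit false

namespace Pool.Agent.Results.MP_37e900_nt.QuestionOne

open Finset Pool.Agent.R856 Pool.Agent.Helper857.Pad

/-- `A_p = ∑_{0 ≤ k ≤ p-1} 48^{-k} C(4k,2k+1) C(2k,k)`. -/
def A (p : ℕ) : ℚ := ∑ k ∈ range p, ((48 : ℚ) ^ k)⁻¹ * ((4 * k).choose (2 * k + 1) : ℚ) * ((2 * k).choose k : ℚ)

/-- **Q1**: for every prime `p > 3`, `A_p ≡ 0 (mod p^2)`: the numerator of `A_p` in lowest terms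
is divisible by `p^2`, and the denominator is prime to `p`. -/
theorem result (p : ℕ) (hp : p.Prime) (h3 : 3 < p) : (p : ℤ) ^ 2 ∣ (A p).num ∧ ¬ p ∣ (A p).den := by
  have _inst : Fact p.Prime := ⟨hp⟩
  obtain ⟨m, hm⟩ : ∃ m, p = 2 * m + 1 := (hp.odd_of_ne_two (by omega))
  have h := FE.main (p := p) (m := m) hm.symm (by omega)
  have e : A p = ∑ k ∈ range p, FE.t k := by
    unfold A
    apply sum_congr rfl; intro k _
    unfold FE.t; rw [div_eq_mul_inv]; ring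
  rw [e]
  exact ⟨TK.num_of_I h, h.mem⟩

end Pool.Agent.Results.MP_37e900_nt.QuestionOne
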